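import Pool.Agent.H848.G.R_seed8.W540.BE.Gen

set_option autoImplicit false

/-!
# Bessel's inequality at the edge, asymptotically orthonormal systems, general primes
-/

namespace Pool.Agent.W540.BE

open Complex Filter Topology ComplexConjugate Pool.Agent.H341R2

theorem besselP {P : Type*} {N : P → ℕ} (hN : NormSys N) (p0 : P)
    (hlam : Tendsto (fun ε : ℝ => (EP N ε fun _ => 1) / lam ε) (𝓝[>] 0) (𝓝 1))
    {κ : Type*} (K : Finset κ) (t : P → ℂ) (v : κ → P → ℂ)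
    (m : κ → ℝ) (b : ℝ) (ht : ∀ p, ‖t p‖ ≤ b) (B : κ → ℝ) (hv : ∀ k p, ‖v k p‖ ≤ B k)
    (horth : ∀ k ∈ K, ∀ l ∈ K, k ≠ l →
      Tendsto (fun ε : ℝ => (EP N ε fun p => (v k p * conj (v l p)).re) / lam ε) (𝓝[>] 0) (𝓝 0))
    (hnorm : ∀ k ∈ K,
      Tendsto (fun ε : ℝ => (EP N ε fun p => (v k p * conj (v k p)).re) / lam ε) (𝓝[>] 0) (𝓝 1))
    (hcorr : ∀ k ∈ K,
      Tendsto (fun ε : ℝ => (EP N ε fun p => (t p * conj (v k p)).re) / lam ε) (𝓝[>] 0)
        (𝓝 (-(m k)))) :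
    ∑ k ∈ K, (m k) ^ 2 ≤ b ^ 2 := by
  classical
  have hb0 : 0 ≤ b := (norm_nonneg _).trans (ht p0)
  have hB0 : ∀ k, 0 ≤ B k := fun k => (norm_nonneg _).trans (hv k p0)
  -- pointwise identity
  have hpt : ∀ p, ‖t p + ∑ k ∈ K, (m k : ℂ) * v k p‖ ^ 2 =
      ‖t p‖ ^ 2 + (∑ k ∈ K, 2 * (m k * (t p * conj (v k p)).re) +
        ∑ k ∈ K, ∑ l ∈ K, (m k * m l) * (v k p * conj (v l p)).re) := by
    intro p
    have e1 : ‖t p + ∑ k ∈ K, (m k : ℂ) * v k p‖ ^ 2 =
        ((t p + ∑ k ∈ K, (m k : ℂ) * v k p) * conj (t p + ∑ k ∈ K, (m k : ℂ) * v k p)).re := by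
      rw [Complex.mul_conj, Complex.ofReal_re, Complex.normSq_eq_norm_sq]
    have e2 : ‖t p‖ ^ 2 = (t p * conj (t p)).re := by
      rw [Complex.mul_conj, Complex.ofReal_re, Complex.normSq_eq_norm_sq]
    have e3 : ((∑ k ∈ K, (m k : ℂ) * v k p) * conj (t p)).re =
        (t p * conj (∑ k ∈ K, (m k : ℂ) * v k p)).re := by
      rw [← Complex.conj_re, map_mul, Complex.conj_conj, mul_comm]
    have e4 : (t p * conj (∑ k ∈ K, (m k : ℂ) * v k p)).re =
        ∑ k ∈ K, m k * (t p * conj (v k p)).re := by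
      rw [map_sum, Finset.mul_sum, Complex.re_sum]
      refine Finset.sum_congr rfl fun k _ => ?_
      rw [map_mul, Complex.conj_ofReal, mul_left_comm, Complex.re_ofReal_mul]
    have e5 : ((∑ k ∈ K, (m k : ℂ) * v k p) * conj (∑ k ∈ K, (m k : ℂ) * v k p)).re =
        ∑ k ∈ K, ∑ l ∈ K, (m k * m l) * (v k p * conj (v l p)).re := by
      rw [map_sum, Finset.sum_mul_sum, Complex.re_sum]
      refine Finset.sum_congr rfl fun k _ => ?_
      rw [Complex.re_sum]
      refine Finset.sum_congr rfl fun l _ => ?_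
      rw [map_mul, Complex.conj_ofReal]
      have : (m k : ℂ) * v k p * ((m l : ℂ) * conj (v l p)) =
          ((m k * m l : ℝ) : ℂ) * (v k p * conj (v l p)) := by
        push_cast; ring
      rw [this, Complex.re_ofReal_mul]
    rw [e1, map_add, add_mul, mul_add, mul_add, Complex.add_re, Complex.add_re, Complex.add_re,
      e3, e4, e5, e2, ← Finset.mul_sum]
    ring
  have hbt : ∀ p, |‖t p‖ ^ 2| ≤ b ^ 2 := by
    intro p
    rw [abs_of_nonneg (sq_nonneg _)]
    exact pow_le_pow_left₀ (norm_nonneg _) (ht p) 2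
  have hb1 : ∀ k p, |(t p * conj (v k p)).re| ≤ b * B k := by
    intro k p
    refine (Complex.abs_re_le_norm _).trans ?_
    rw [norm_mul, Complex.norm_conj]
    exact mul_le_mul (ht p) (hv k p) (norm_nonneg _) hb0
  have hb2 : ∀ k l p, |(v k p * conj (v l p)).re| ≤ B k * B l := by
    intro k l p
    refine (Complex.abs_re_le_norm _).trans ?_
    rw [norm_mul, Complex.norm_conj]
    exact mul_le_mul (hv k p) (hv l p) (norm_nonneg _) (hB0 k)
  have hb1' : ∀ k p, |2 * (m k * (t p * conj (v k p)).re)| ≤ 2 * (|m k| * (b * B k)) := by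
    intro k p
    rw [abs_mul, abs_mul, abs_two]
    gcongr
    exact hb1 k p
  have hb2' : ∀ k l p, |m k * m l * (v k p * conj (v l p)).re| ≤ |m k * m l| * (B k * B l) := by
    intro k l p
    rw [abs_mul]
    gcongr
    exact hb2 k l p
  have hS2 : ∀ k p, |∑ l ∈ K, m k * m l * (v k p * conj (v l p)).re| ≤
      ∑ l ∈ K, |m k * m l| * (B k * B l) := fun k p =>
    (Finset.abs_sum_le_sum_abs _ _).trans (Finset.sum_le_sum fun l _ => hb2' k l p)
  have hexp : ∀ ε : ℝ, 0 < ε → EP N ε (fun p => ‖t p + ∑ k ∈ K, (m k : ℂ) * v k p‖ ^ 2) =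
      EP N ε (fun p => ‖t p‖ ^ 2) + (∑ k ∈ K, 2 * (m k * EP N ε fun p => (t p * conj (v k p)).re) +
        ∑ k ∈ K, ∑ l ∈ K, (m k * m l) * EP N ε fun p => (v k p * conj (v l p)).re) := by
    intro ε hε
    have s1 : ∀ p, |∑ k ∈ K, 2 * (m k * (t p * conj (v k p)).re)| ≤
        ∑ k ∈ K, 2 * (|m k| * (b * B k)) := fun p =>
      (Finset.abs_sum_le_sum_abs _ _).trans (Finset.sum_le_sum fun k _ => hb1' k p)
    have s2 : ∀ p, |∑ k ∈ K, ∑ l ∈ K, (m k * m l) * (v k p * conj (v l p)).re| ≤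
        ∑ k ∈ K, ∑ l ∈ K, |m k * m l| * (B k * B l) := fun p =>
      (Finset.abs_sum_le_sum_abs _ _).trans (Finset.sum_le_sum fun k _ => hS2 k p)
    rw [funext hpt, EP_add hN hε hbt (B' := ∑ k ∈ K, 2 * (|m k| * (b * B k)) +
      ∑ k ∈ K, ∑ l ∈ K, |m k * m l| * (B k * B l))
      (fun p => (abs_add_le _ _).trans (add_le_add (s1 p) (s2 p))), EP_add hN hε s1 s2,
      EP_sum hN hε K _ (fun k => 2 * (|m k| * (b * B k))) (fun k _ p => hb1' k p),
      EP_sum hN hε K _ (fun k => ∑ l ∈ K, |m k * m l| * (B k * B l)) (fun k _ p => hS2 k p)]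
    congr 2
    · refine Finset.sum_congr rfl fun k _ => ?_
      rw [EP_const_mul, EP_const_mul]
    · refine Finset.sum_congr rfl fun k _ => ?_
      rw [EP_sum hN hε K _ (fun l => |m k * m l| * (B k * B l)) (fun l _ p => hb2' k l p)]
      refine Finset.sum_congr rfl fun l _ => ?_
      rw [EP_const_mul]
  have hlampos : ∀ᶠ ε : ℝ in 𝓝[>] 0, 0 < lam ε := lam_tendsto.eventually_gt_atTop 0
  have hlim : Tendsto (fun ε : ℝ => b ^ 2 * ((EP N ε fun _ => 1) / lam ε) +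
      (∑ k ∈ K, 2 * (m k * ((EP N ε fun p => (t p * conj (v k p)).re) / lam ε)) +
        ∑ k ∈ K, ∑ l ∈ K, (m k * m l) * ((EP N ε fun p => (v k p * conj (v l p)).re) / lam ε)))
      (𝓝[>] 0) (𝓝 (b ^ 2 * 1 + (∑ k ∈ K, 2 * (m k * (-(m k))) +
        ∑ k ∈ K, ∑ l ∈ K, (m k * m l) * (if k = l then 1 else 0)))) := by
    refine (hlam.const_mul _).add (Tendsto.add ?_ ?_)
    · refine tendsto_finsetSum _ fun k hk => ?_
      exact ((hcorr k hk).const_mul (m k)).const_mul 2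
    · refine tendsto_finsetSum _ fun k hk => tendsto_finsetSum _ fun l hl => ?_
      refine Tendsto.const_mul _ ?_
      by_cases h : k = l
      · subst h
        simpa using hnorm k hk
      · simpa [h] using horth k hk l hl h
  have hnn : ∀ᶠ ε : ℝ in 𝓝[>] 0, 0 ≤ b ^ 2 * ((EP N ε fun _ => 1) / lam ε) +
      (∑ k ∈ K, 2 * (m k * ((EP N ε fun p => (t p * conj (v k p)).re) / lam ε)) +
        ∑ k ∈ K, ∑ l ∈ K, (m k * m l) * ((EP N ε fun p => (v k p * conj (v l p)).re) / lam ε)) := by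
    filter_upwards [hlampos, self_mem_nhdsWithin] with ε hl h0
    have hε : 0 < ε := h0
    have h1 : 0 ≤ EP N ε (fun p => ‖t p + ∑ k ∈ K, (m k : ℂ) * v k p‖ ^ 2) :=
      EP_nonneg fun p => sq_nonneg _
    rw [hexp ε hε] at h1
    have h2 : EP N ε (fun p => ‖t p‖ ^ 2) ≤ b ^ 2 * EP N ε fun _ => 1 :=
      EP_le hN hε hbt fun p => (le_abs_self _).trans (hbt p)
    have h3 : 0 ≤ ((b ^ 2 * EP N ε fun _ => 1) + (∑ k ∈ K, 2 * (m k * EP N ε fun p => (t p * conj (v k p)).re) +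
        ∑ k ∈ K, ∑ l ∈ K, (m k * m l) * EP N ε fun p => (v k p * conj (v l p)).re)) / lam ε :=
      div_nonneg (by linarith) hl.le
    rw [add_div, add_div, mul_div_assoc, Finset.sum_div, Finset.sum_div] at h3
    have e1 : ∑ k ∈ K, 2 * (m k * EP N ε fun p => (t p * conj (v k p)).re) / lam ε =
        ∑ k ∈ K, 2 * (m k * ((EP N ε fun p => (t p * conj (v k p)).re) / lam ε)) :=
      Finset.sum_congr rfl fun k _ => by ring
    have e2 : ∑ k ∈ K, (∑ l ∈ K, (m k * m l) * EP N ε fun p => (v k p * conj (v l p)).re) / lam ε =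
        ∑ k ∈ K, ∑ l ∈ K, (m k * m l) * ((EP N ε fun p => (v k p * conj (v l p)).re) / lam ε) := by
      refine Finset.sum_congr rfl fun k _ => ?_
      rw [Finset.sum_div]
      exact Finset.sum_congr rfl fun l _ => by ring
    rw [e1, e2] at h3
    exact h3
  have hfin := ge_of_tendsto hlim hnn
  have h4 : ∑ k ∈ K, ∑ l ∈ K, (m k * m l) * (if k = l then (1 : ℝ) else 0) =
      ∑ k ∈ K, (m k) ^ 2 := by
    refine Finset.sum_congr rfl fun k hk => ?_
    simp only [mul_ite, mul_one, mul_zero, Finset.sum_ite_eq, hk, if_true]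
    ring
  have h5 : ∑ k ∈ K, 2 * (m k * (-(m k))) = -2 * ∑ k ∈ K, (m k) ^ 2 := by
    rw [Finset.mul_sum]
    exact Finset.sum_congr rfl fun k _ => by ring
  rw [h4, h5] at hfin
  linarith

end Pool.Agent.W540.BE
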